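import Pool.Agent.H97.RK.Targets

/-! (PRM) the parameters. -/

set_option autoImplicit false

open Finset Pool.Agent.H97.RK

namespace Pool.Agent.H20.RKS

theorem three_pow {n : ℕ} (hn : 3 ≤ n) : (2 : ℝ) * ((2 : ℝ) ^ n * (2 : ℝ) ^ ((1 / 10 : ℝ) * n)) ≤
    3 ^ n := by
  have h1 : (2 : ℝ) ^ ((3 : ℝ) / 2) ≤ 3 := by
    have h2 : ((2 : ℝ) ^ ((3 : ℝ) / 2)) ^ 2 = 8 := by
      rw [← Real.rpow_natCast, ← Real.rpow_mul (by norm_num)]
      norm_num
    by_contra h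
    rw [not_le] at h
    have h4 : (3 : ℝ) * 3 < (2 : ℝ) ^ ((3 : ℝ) / 2) * (2 : ℝ) ^ ((3 : ℝ) / 2) :=
      mul_lt_mul'' h h (by norm_num) (by norm_num)
    rw [← pow_two ((2 : ℝ) ^ ((3 : ℝ) / 2)), h2] at h4
    norm_num at h4
  have h4 : (2 : ℝ) ^ ((3 : ℝ) / 2 * n) ≤ 3 ^ n := by
    rw [Real.rpow_mul (by norm_num), Real.rpow_natCast]
    exact pow_le_pow_left₀ (by positivity) h1 n
  refine le_trans ?_ h4
  have h5 : (2 : ℝ) * ((2 : ℝ) ^ n * (2 : ℝ) ^ ((1 / 10 : ℝ) * n)) =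
      (2 : ℝ) ^ ((1 : ℝ) + (n + (1 / 10 : ℝ) * n)) := by
    rw [Real.rpow_add (by norm_num), Real.rpow_add (by norm_num), Real.rpow_one,
      Real.rpow_natCast]
  rw [h5]
  apply Real.rpow_le_rpow_of_exponent_le (by norm_num)
  have h6 : (3 : ℝ) ≤ n := by exact_mod_cast hn
  linarith

/-- the basic inequalities -/
structure Bas (δ σ K' k n u : ℝ) : Prop where
  d0 : 0 < δ
  d1 : δ ≤ 1 / 100
  kp : 0 < k
  K1 : 1 ≤ K'
  np : 0 < n
  up : 0 < u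
  uk : u * k = n
  a1 : 1 ≤ δ ^ 3 * n / 1000
  a2 : u ≤ δ ^ 3 * n / 1000
  a3 : k ≤ δ ^ 3 * n / 1000
  a4 : n / K' ≤ δ ^ 3 * n / 1000
  a5 : u ≤ δ * σ * n / 1000
  a6 : 1 ≤ δ * σ * n / 1000
  b1 : δ ^ 3 * n ≤ δ ^ 2 * n / 100
  b2 : δ ^ 2 * n ≤ δ * n / 100
  b3 : δ * n ≤ n / 100
  b4 : δ * σ * n ≤ σ * n / 100

/-- the real inequalities -/
theorem bas {δ σ K K' k n : ℝ} (hδ : 0 < δ) (hδ1 : δ ≤ 1 / 100) (hσ : 0 < σ)
    (hK : 1000 ≤ K) (hKδ : 1000 ≤ δ ^ 3 * K) (hKσ : 1000 ≤ δ * σ * K) (h1 : K ≤ K') (h2 : K' ≤ k)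
    (h3 : K' * k ≤ n) : Bas δ σ K' k n (n / k) := by
  have hk : 0 < k := by linarith
  have hKp : 0 < K := by linarith
  have hK'p : 0 < K' := by linarith
  have hn : 0 < n := lt_of_lt_of_le (mul_pos hK'p hk) h3
  have hKn : K * k ≤ n := le_trans (mul_le_mul_of_nonneg_right h1 hk.le) h3
  have e1 : n / K ≤ δ ^ 3 * n / 1000 := by
    rw [div_le_div_iff₀ hKp (by norm_num)]
    have := mul_le_mul_of_nonneg_left hKδ hn.le
    linarith
  have e2 : n / K ≤ δ * σ * n / 1000 := by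
    rw [div_le_div_iff₀ hKp (by norm_num)]
    have := mul_le_mul_of_nonneg_left hKσ hn.le
    linarith
  have e3 : n / k ≤ n / K := by
    apply div_le_div_of_nonneg_left hn.le hKp
    linarith
  have e4 : n / K' ≤ n / K := div_le_div_of_nonneg_left hn.le hKp h1
  have e5 : k ≤ n / K := by
    rw [le_div_iff₀ hKp]
    linarith
  have f1 := mul_le_mul_of_nonneg_left hδ1 (show 0 ≤ δ ^ 2 * n by positivity)
  have f2 := mul_le_mul_of_nonneg_left hδ1 (show 0 ≤ δ * n by positivity)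
  have f3 := mul_le_mul_of_nonneg_left hδ1 hn.le
  have f4 := mul_le_mul_of_nonneg_left hδ1 (show 0 ≤ σ * n by positivity)
  refine ⟨hδ, hδ1, hk, by linarith, hn, by positivity, by field_simp, by linarith, by linarith,
    by linarith, by linarith, by linarith, by linarith, ?_, ?_, ?_, ?_⟩
  · linarith only [f1]
  · linarith only [f2]
  · linarith only [f3]
  · linarith only [f4]

theorem fact_t {δ σ K' k n u t : ℝ} (h : Bas δ σ K' k n u) (ht2 : t < 16 * u / δ + 1) :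
    16 * u / δ ≤ 16 * (δ ^ 2 * n / 1000) ∧ 4 * t ≤ δ * n / 2 ∧ 2 * t ≤ σ * n := by
  obtain ⟨d0, d1, kp, K1, np, up, uk, a1, a2, a3, a4, a5, a6, b1, b2, b3, b4⟩ := h
  have e1 : 16 * u / δ ≤ 16 * (δ ^ 2 * n / 1000) := by
    rw [div_le_iff₀ d0]
    linarith only [a2]
  have e2 : 16 * u / δ ≤ 16 * (σ * n / 1000) := by
    rw [div_le_iff₀ d0]
    linarith only [a5]
  exact ⟨e1, by linarith only [e1, ht2, b1, b2, a1], by linarith only [e2, ht2, b4, a6]⟩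

theorem fact_jt {δ σ K' k n u j t : ℝ} (h : Bas δ σ K' k n u) (ht2 : t < 16 * u / δ + 1)
    (hj2 : j < δ ^ 2 / 512 * k + 1) (ht0 : 0 ≤ t) : j * t ≤ δ * n / 4 ∧ j < k := by
  obtain ⟨e1, -, -⟩ := fact_t h ht2
  obtain ⟨d0, d1, kp, K1, np, up, uk, a1, a2, a3, a4, a5, a6, b1, b2, b3, b4⟩ := h
  have hδsq : δ ^ 2 ≤ 1 / 100 := by
    have := mul_le_mul d1 d1 d0.le (by norm_num)
    linarith only [this]
  have h3 : δ ^ 2 / 512 * k ≤ 1 / 2 * k :=
    mul_le_mul_of_nonneg_right (by linarith only [hδsq]) kp.le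
  have hk2 : 2 < k := by
    -- `k` is large: `n ≤ k δ³ n / 1000`
    have h5 : u * k ≤ δ ^ 3 * n / 1000 * k := mul_le_mul_of_nonneg_right a2 kp.le
    rw [uk] at h5
    have h6 : δ ^ 3 * n ≤ n := by linarith only [b1, b2, b3, np]
    have h7 : δ ^ 3 * n / 1000 * k ≤ n / 1000 * k :=
      mul_le_mul_of_nonneg_right (by linarith only [h6]) kp.le
    have h8 : n * 1000 ≤ n * k := by linarith only [h5, h7]
    have h9 := le_of_mul_le_mul_left h8 np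
    linarith only [h9]
  constructor
  · have h1 : j * t ≤ (δ ^ 2 / 512 * k + 1) * (16 * u / δ + 1) :=
      mul_le_mul hj2.le ht2.le ht0 (by positivity)
    have h2 : (δ ^ 2 / 512 * k + 1) * (16 * u / δ + 1) =
        δ * (u * k) / 32 + 16 * u / δ + δ ^ 2 / 512 * k + 1 := by
      field_simp
      ring
    rw [h2, uk] at h1
    linarith only [h1, h3, e1, a3, a1, b1, b2]
  · linarith only [h3, hj2, hk2]

theorem fact_run {δ σ K' k n u t r s : ℝ} (h : Bas δ σ K' k n u) (ht2 : t < 16 * u / δ + 1)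
    (ht0 : 0 ≤ t) (hr : r ≤ k / K') (hr0 : 0 ≤ s) {d : ℝ} (hd : δ * n ≤ d)
    (hs : s ≤ n * r / d) : 2 * t * (s + 1) ≤ 2 * δ * n := by
  obtain ⟨e1, -, -⟩ := fact_t h ht2
  obtain ⟨d0, d1, kp, K1, np, up, uk, a1, a2, a3, a4, a5, a6, b1, b2, b3, b4⟩ := h
  have hK'p : 0 < K' := by linarith only [K1]
  have hdpos : 0 < d := lt_of_lt_of_le (by positivity) hd
  have g2 : s ≤ k / (K' * δ) := by
    refine hs.trans ?_
    rw [div_le_iff₀ hdpos]
    have g4 : n * r ≤ n * (k / K') := mul_le_mul_of_nonneg_left hr np.le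
    have g5 : k / (K' * δ) * (δ * n) = n * (k / K') := by field_simp
    have g6 : k / (K' * δ) * (δ * n) ≤ k / (K' * δ) * d :=
      mul_le_mul_of_nonneg_left hd (by positivity)
    linarith only [g4, g5, g6]
  have g7 : 2 * t * (s + 1) ≤ 2 * (16 * u / δ + 1) * (k / (K' * δ) + 1) :=
    mul_le_mul (by linarith only [ht2]) (by linarith only [g2]) (by positivity) (by positivity)
  have g8 : 2 * (16 * u / δ + 1) * (k / (K' * δ) + 1) =
      32 * (u * k / K') / δ ^ 2 + 2 * (16 * u / δ) + 2 * (k / (K' * δ)) + 2 := by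
    field_simp
    ring
  have g9 : 32 * (u * k / K') / δ ^ 2 ≤ 32 * (δ * n / 1000) := by
    rw [uk, div_le_iff₀ (by positivity)]
    linarith only [a4]
  have g10 : k / (K' * δ) ≤ δ ^ 2 * n / 1000 := by
    rw [div_le_iff₀ (by positivity)]
    have g11 : δ ^ 2 * n / 1000 * (K' * δ) = δ ^ 3 * n / 1000 * K' := by ring
    rw [g11]
    have g12 : δ ^ 3 * n / 1000 * 1 ≤ δ ^ 3 * n / 1000 * K' :=
      mul_le_mul_of_nonneg_left K1 (by linarith only [a1])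
    linarith only [g12, a3]
  rw [g8] at g7
  have hp : 0 < δ * n := by positivity
  linarith only [g7, g9, g10, e1, b1, b2, a1, hp]

/-- the numerical conditions on the balls -/
theorem fact_ball {ε δ n : ℝ} {n' d t e : ℕ} (hn : (n' : ℝ) = n) {ξ1 ξ2 : ℝ}
    (hδε : 100 * δ ≤ ε) (hδ1 : 100 * δ ≤ ξ1) (hδ2 : 100 * δ ≤ ξ2) (hnp : 0 < n)
    (hB1 : ∀ a : ℕ, (a : ℝ) ≤ ξ1 * n → (bl n' a : ℝ) ≤ (2 : ℝ) ^ (ε / 4 * n))
    (hB2 : ∀ a : ℕ, (a : ℝ) ≤ ξ2 * n → (bl n' a : ℝ) ≤ (2 : ℝ) ^ ((1 / 10 : ℝ) * n))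
    (hnδ : 1 ≤ δ * n / 100000) (hd2 : (d : ℝ) < δ * n + 1) (hT : 4 * (t : ℝ) ≤ δ * n / 2)
    (heR : (e : ℝ) ≤ δ * n / 4) (b3 : δ * n ≤ n / 100) :
    (∀ a : ℕ, (a : ℝ) ≤ 2 * δ * n → (2 : ℝ) ^ (3 * d) * bl n' a ≤ (2 : ℝ) ^ (ε * n)) ∧
    2 * (bl n' (d + 2 * t) : ℝ) * bl n' t ≤ (2 : ℝ) ^ (ε * n) ∧
    2 * (2 ^ n' * bl n' (e + d)) ≤ 3 ^ n' := by
  have hεn : 100 * (δ * n) ≤ ε * n := by
    have := mul_le_mul_of_nonneg_right hδε hnp.le
    linarith only [this]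
  have hB : ∀ a : ℕ, (a : ℝ) ≤ 2 * δ * n → (bl n' a : ℝ) ≤ (2 : ℝ) ^ (ε / 4 * n) ∧
      (bl n' a : ℝ) ≤ (2 : ℝ) ^ ((1 / 10 : ℝ) * n) := by
    intro a ha
    have hp : 0 < δ * n := by linarith only [hnδ]
    constructor
    · apply hB1
      have := mul_le_mul_of_nonneg_right hδ1 hnp.le
      linarith only [this, ha, hp]
    · apply hB2
      have := mul_le_mul_of_nonneg_right hδ2 hnp.le
      linarith only [this, ha, hp]
  refine ⟨?_, ?_, ?_⟩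
  · intro a ha
    have h1 := (hB _ ha).1
    have h2 : (2 : ℝ) ^ (3 * d) ≤ (2 : ℝ) ^ (ε / 2 * n) := by
      rw [← Real.rpow_natCast]
      apply Real.rpow_le_rpow_of_exponent_le (by norm_num)
      push_cast
      linarith only [hd2, hεn, hnδ]
    calc (2 : ℝ) ^ (3 * d) * bl n' a ≤ (2 : ℝ) ^ (ε / 2 * n) * (2 : ℝ) ^ (ε / 4 * n) :=
          mul_le_mul h2 h1 (Nat.cast_nonneg _) (by positivity)
      _ = (2 : ℝ) ^ (ε / 2 * n + ε / 4 * n) := by rw [Real.rpow_add (by norm_num)]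
      _ ≤ (2 : ℝ) ^ (ε * n) := by
        apply Real.rpow_le_rpow_of_exponent_le (by norm_num)
        linarith only [hεn, hnδ]
  · have h1 := (hB (d + 2 * t) (by push_cast; linarith only [hd2, hT, hnδ])).1
    have h2 := (hB t (by linarith only [hT, hnδ])).1
    calc 2 * (bl n' (d + 2 * t) : ℝ) * bl n' t ≤
        2 * (2 : ℝ) ^ (ε / 4 * n) * (2 : ℝ) ^ (ε / 4 * n) := by
          apply mul_le_mul (by linarith only [h1]) h2 (Nat.cast_nonneg _) (by positivity)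
      _ = (2 : ℝ) ^ (1 + ε / 4 * n + ε / 4 * n) := by
        rw [Real.rpow_add (by norm_num), Real.rpow_add (by norm_num), Real.rpow_one]
      _ ≤ (2 : ℝ) ^ (ε * n) := by
        apply Real.rpow_le_rpow_of_exponent_le (by norm_num)
        linarith only [hεn, hnδ]
  · have h1 := (hB (e + d) (by push_cast; linarith only [hd2, heR, hnδ])).2
    have hn3 : 3 ≤ n' := by
      have : (3 : ℝ) ≤ n' := by rw [hn]; linarith only [hnδ, b3]
      exact_mod_cast this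
    have h2 := three_pow hn3
    rw [hn] at h2
    have h3 : (2 : ℝ) * ((2 : ℝ) ^ n' * bl n' (e + d)) ≤ 3 ^ n' := by
      refine le_trans ?_ h2
      apply mul_le_mul_of_nonneg_left _ (by norm_num)
      exact mul_le_mul_of_nonneg_left h1 (by positivity)
    exact_mod_cast h3

theorem pf_PRM (hBLB : T_BLB) : T_PRM := by
  intro ε hε hε1
  obtain ⟨ξ1, hξ1, hB1⟩ := hBLB (ε / 4) (by linarith)
  obtain ⟨ξ2, hξ2, hB2⟩ := hBLB (1 / 10) (by norm_num)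
  obtain ⟨δ, hδ, hδε, hδ1, hδ2, hδ100⟩ : ∃ δ : ℝ, 0 < δ ∧ 100 * δ ≤ ε ∧ 100 * δ ≤ ξ1 ∧
      100 * δ ≤ ξ2 ∧ δ ≤ 1 / 100 := by
    refine ⟨min (min ε ξ1) ξ2 / 100, ?_, ?_, ?_, ?_, ?_⟩
    · have : 0 < min (min ε ξ1) ξ2 := lt_min (lt_min hε hξ1) hξ2
      positivity
    · have := (min_le_left (min ε ξ1) ξ2).trans (min_le_left ε ξ1)
      linarith
    · have := (min_le_left (min ε ξ1) ξ2).trans (min_le_right ε ξ1)
      linarith
    · have := min_le_right (min ε ξ1) ξ2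
      linarith
    · have := (min_le_left (min ε ξ1) ξ2).trans (min_le_left ε ξ1)
      linarith
  refine ⟨δ, δ ^ 2 / 512, hδ, by linarith, by positivity, ?_, ?_⟩
  · have := mul_le_mul hδ100 hδ100 hδ.le (by norm_num)
    linarith
  intro σ hσ
  obtain ⟨K, hK1, hKδ, hKσ⟩ : ∃ K : ℕ, 1000 ≤ (K : ℝ) ∧ 1000 ≤ δ ^ 3 * K ∧
      1000 ≤ δ * σ * K := by
    refine ⟨⌈max 1000 (max (1000 / δ ^ 3) (1000 / (δ * σ)))⌉₊, ?_, ?_, ?_⟩
    · exact (le_max_left _ _).trans (Nat.le_ceil _)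
    · have h1 : 1000 / δ ^ 3 ≤ (⌈max 1000 (max (1000 / δ ^ 3) (1000 / (δ * σ)))⌉₊ : ℝ) :=
        ((le_max_left _ _).trans (le_max_right _ _)).trans (Nat.le_ceil _)
      rw [div_le_iff₀ (by positivity)] at h1
      linarith only [h1]
    · have h1 : 1000 / (δ * σ) ≤ (⌈max 1000 (max (1000 / δ ^ 3) (1000 / (δ * σ)))⌉₊ : ℝ) :=
        ((le_max_right _ _).trans (le_max_right _ _)).trans (Nat.le_ceil _)
      rw [div_le_iff₀ (by positivity)] at h1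
      linarith only [h1]
  refine ⟨K, ?_, ?_⟩
  · have : (1 : ℝ) ≤ K := by linarith only [hK1]
    exact_mod_cast this
  intro K' k n hKK hKk hKn
  have hb := bas hδ hδ100 hσ hK1 hKδ hKσ (K' := K') (k := k) (n := n) (by exact_mod_cast hKK)
    (by exact_mod_cast hKk) (by exact_mod_cast hKn)
  obtain ⟨u, hu⟩ : ∃ u : ℝ, u = n / k := ⟨_, rfl⟩
  rw [← hu] at hb
  have hnp := hb.np
  have hkp := hb.kp
  have hδn : 0 < δ * n := by positivity
  have hup := hb.up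
  -- the parameters
  obtain ⟨j, hj⟩ : ∃ j : ℕ, j = ⌈δ ^ 2 / 512 * k⌉₊ := ⟨_, rfl⟩
  obtain ⟨t, ht⟩ : ∃ t : ℕ, t = ⌈16 * u / δ⌉₊ := ⟨_, rfl⟩
  obtain ⟨d, hd⟩ : ∃ d : ℕ, d = ⌈δ * n⌉₊ := ⟨_, rfl⟩
  have hj1 : δ ^ 2 / 512 * k ≤ j := by rw [hj]; exact Nat.le_ceil _
  have hj2 : (j : ℝ) < δ ^ 2 / 512 * k + 1 := by
    rw [hj]; exact Nat.ceil_lt_add_one (by positivity)
  have ht1 : 16 * u / δ ≤ t := by rw [ht]; exact Nat.le_ceil _
  have ht2 : (t : ℝ) < 16 * u / δ + 1 := by rw [ht]; exact Nat.ceil_lt_add_one (by positivity)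
  have hd1 : δ * n ≤ d := by rw [hd]; exact Nat.le_ceil _
  have hd2 : (d : ℝ) < δ * n + 1 := by rw [hd]; exact Nat.ceil_lt_add_one (by positivity)
  have ht0 : (0 : ℝ) ≤ t := Nat.cast_nonneg t
  obtain ⟨-, hT, hTσ⟩ := fact_t hb ht2
  obtain ⟨hjt, hjk⟩ := fact_jt hb ht2 hj2 ht0
  have hnδ : 1 ≤ δ * n / 100000 := by linarith only [hb.a1, hb.b1, hb.b2]
  obtain ⟨e, he⟩ : ∃ e : ℕ, e = max (j * t) (2 * t) := ⟨_, rfl⟩
  have heR : (e : ℝ) ≤ δ * n / 4 := by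
    rw [he]
    push_cast
    apply max_le
    · exact hjt
    · linarith only [hT, hδn]
  have he2d : 2 * e ≤ d := by
    have : (2 : ℝ) * e ≤ d := by linarith only [heR, hd1, hδn]
    exact_mod_cast this
  obtain ⟨F1, F2, F3⟩ := fact_ball (d := d) (t := t) (e := e) rfl hδε hδ1 hδ2 hnp
    (fun a ha => hB1 n a ha) (fun a ha => hB2 n a ha) hnδ hd2 hT heR hb.b3
  refine ⟨j, t, d, e, hj1, ?_, ?_, ?_, ?_, ?_, he2d, ?_, ?_, hd1, ?_, ?_, F2, F3⟩
  · exact_mod_cast hjk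
  · have : (0 : ℝ) < t := lt_of_lt_of_le (by positivity) ht1
    have h2 : 0 < t := by exact_mod_cast this
    omega
  · apply Nat.le_floor
    push_cast
    exact hTσ
  · rw [he]
    exact le_max_right _ _
  · rw [he]
    exact le_max_left _ _
  · have : (0 : ℝ) < d := lt_of_lt_of_le hδn hd1
    have h2 : 0 < d := by exact_mod_cast this
    omega
  · have : (2 : ℝ) * d + e ≤ n := by linarith only [hb.b3, hd2, heR, hnδ]
    exact_mod_cast this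
  · rw [div_le_iff₀ hδ] at ht1
    have h1 : 16 * (n : ℝ) = 16 * u * k := by rw [← hb.uk]; ring
    have h2 := mul_le_mul_of_nonneg_right ht1 hkp.le
    rw [h1]
    linarith only [h2]
  · apply F1
    push_cast
    refine fact_run hb ht2 ht0 (r := ((k / K' : ℕ) : ℝ)) Nat.cast_div_le (Nat.cast_nonneg _) hd1 ?_
    have g3 : ((n * (k / K') / d : ℕ) : ℝ) ≤ ((n * (k / K') : ℕ) : ℝ) / d := Nat.cast_div_le
    push_cast at g3
    exact g3

end Pool.Agent.H20.RKS
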