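import Pool.Agent.H97.RK.Targets

/-! (RUN) the path ends in a wide line. -/

set_option autoImplicit false

open Finset Pool.Agent.H97.RK

namespace Pool.Agent.H20.RKS

theorem dst_triangle {n : ℕ} (x y z : Fin n → Bool) : dst x z ≤ dst x y + dst y z := by
  unfold dst
  refine (Finset.card_le_card ?_).trans (Finset.card_union_le _ _)
  intro u hu
  rw [Finset.mem_filter] at hu
  rw [Finset.mem_union, Finset.mem_filter, Finset.mem_filter]
  by_cases h : x u = y u
  · right
    exact ⟨Finset.mem_univ _, fun h2 => hu.2 (h.trans h2)⟩
  · left
    exact ⟨Finset.mem_univ _, h⟩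

theorem dst_self {n : ℕ} (x : Fin n → Bool) : dst x x = 0 := by
  unfold dst
  rw [Finset.card_eq_zero, Finset.filter_eq_empty_iff]
  intro u _ h
  exact h rfl

/-- the potential -/
def ph {n : ℕ} (R : ℕ) (l : List (Fin n)) : ℕ := ∑ v, min (l.count v) R

theorem ph_le {n : ℕ} (R : ℕ) (l : List (Fin n)) : ph R l ≤ n * R := by
  unfold ph
  refine (Finset.sum_le_card_nsmul univ _ R fun v _ => min_le_right _ _).trans ?_
  rw [Finset.card_univ, Fintype.card_fin, smul_eq_mul]

theorem ph_add {n : ℕ} (R h : ℕ) (q l : List (Fin n))
    (hc : (univ.filter fun v => R < (q ++ l).count v).card ≤ h) :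
    ph R l + (q.toFinset.card - h) ≤ ph R (q ++ l) := by
  obtain ⟨Q, hQ⟩ : ∃ Q, Q = q.toFinset \ (univ.filter fun v => R < (q ++ l).count v) := ⟨_, rfl⟩
  have h1 : q.toFinset.card - h ≤ Q.card := by
    have := Finset.le_card_sdiff (univ.filter fun v => R < (q ++ l).count v) q.toFinset
    rw [← hQ] at this
    omega
  have h2 : ph R l + Q.card ≤ ph R (q ++ l) := by
    unfold ph
    have h3 : Q.card = ∑ v, if v ∈ Q then 1 else 0 := by
      rw [Finset.sum_ite_mem, Finset.univ_inter, Finset.sum_const, smul_eq_mul, mul_one]
    rw [h3, ← Finset.sum_add_distrib]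
    apply Finset.sum_le_sum
    intro v _
    have h4 : (q ++ l).count v = q.count v + l.count v := List.count_append
    by_cases hv : v ∈ Q
    · rw [if_pos hv]
      rw [hQ, Finset.mem_sdiff, Finset.mem_filter] at hv
      have h5 : ¬ R < (q ++ l).count v := fun h => hv.2 ⟨Finset.mem_univ _, h⟩
      have h6 : 0 < q.count v := List.count_pos_iff.2 (List.mem_toFinset.1 hv.1)
      omega
    · rw [if_neg hv]
      omega
  omega

theorem pf_RUN (hSTP : T_STP) (hFGT : T_FGT) : T_RUN := by
  intro n k m F j t d e s₀ hP hd hde S r line rule href R h hpath x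
  have href0 := href
  obtain ⟨hr, hline, -⟩ := href0
  have hjk := hP.jk
  have ht1 := hP.t1
  have hed := hP.ed
  by_cases hn : n ≤ h + 3 * d
  · refine ⟨r, hr, x, ?_, ?_, ?_⟩
    · intro l hl
      rw [hline] at hl
      exact absurd hl (Finset.notMem_empty _)
    · omega
    · rw [dst_self]
      exact Nat.zero_le _
  · push Not at hn
    have key : ∀ i, i < S → ∀ (l0 q : List (Fin n)) (A A0 W : Finset (Fin n)) (J : Finset (Fin m))
        (y : Fin n → Bool) (p : ℕ), Path rule r i (q ++ l0) → St F j t y A W J →
        Falsified (line i) y → vs (line i) ⊆ A → A ⊆ A0 ∪ q.toFinset →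
        A0.card + h + 3 * d < n → A.card + 1 + e + d ≤ n → dst y x ≤ 2 * t * p + J.card →
        p * d ≤ ph R l0 → ∃ i, i < S ∧ ∃ y, Falsified (line i) y ∧
          n ≤ (vs (line i)).card + (h + 3 * d) ∧ dst y x ≤ 2 * t * (n * R / d + 1) := by
      intro i
      induction i using Nat.strong_induction_on with
      | _ i ih =>
        intro hi l0 q A A0 W J y p hpi hst hfal hvs hA hA0 hAc hdst hph
        obtain ⟨i', y', A', W', J', q', hi', hst', hfal', hvs', hA', hAc', hdst', hpi'⟩ :=
          hSTP n k m F j t d e s₀ hP S r line rule href i y A W J hi hst hfal hvs hAc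
        have hpath' := hpi' _ hpi
        rw [← List.append_assoc] at hpath'
        have hsub : A' ⊆ A0 ∪ (q' ++ q).toFinset := by
          rw [hA', List.toFinset_append]
          apply Finset.union_subset
          · refine hA.trans (Finset.union_subset Finset.subset_union_left ?_)
            exact Finset.subset_union_right.trans Finset.subset_union_right
          · exact Finset.subset_union_left.trans Finset.subset_union_right
        have hd' : dst y' x ≤ 2 * t * p + J'.card := by
          have := dst_triangle y' y x
          omega
        have hi'S : i' < S := hi'.trans hi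
        by_cases hc : A'.card + 1 + e + d ≤ n
        · exact ih i' hi' hi'S l0 (q' ++ q) A' A0 W' J' y' p hpath' hst' hfal' hvs' hsub hA0 hc
            hd' hph
        · have hpR : p ≤ n * R / d := by
            rw [Nat.le_div_iff_mul_le (by omega)]
            exact hph.trans (ph_le R l0)
          have hJ' := hst'.lt
          by_cases hw : n ≤ (vs (line i')).card + (h + 3 * d)
          · refine ⟨i', hi'S, y', hfal', hw, ?_⟩
            have h1 : 2 * t * (p + 1) ≤ 2 * t * (n * R / d + 1) :=
              Nat.mul_le_mul_left _ (by omega)
            have h2 : 2 * t * (p + 1) = 2 * t * p + 2 * t := by ring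
            omega
          · push Not at hw
            obtain ⟨y'', W'', J'', hst'', heq, hdst''⟩ :=
              hFGT n k m F j t d e s₀ hP y' A' (vs (line i')) W' J' hst' hvs' (by omega)
            have hfal'' : Falsified (line i') y'' := by
              intro l hl
              rw [heq l.1 (Finset.mem_image_of_mem _ hl)]
              exact hfal' l hl
            have hph' : (p + 1) * d ≤ ph R ((q' ++ q) ++ l0) := by
              have h1 := ph_add R h (q' ++ q) l0 (hpath i' _ hpath')
              have h2 : A'.card ≤ A0.card + (q' ++ q).toFinset.card :=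
                (Finset.card_le_card hsub).trans (Finset.card_union_le _ _)
              have h3 : (p + 1) * d = p * d + d := by ring
              omega
            refine ih i' hi' hi'S ((q' ++ q) ++ l0) [] (vs (line i')) (vs (line i')) W'' J'' y''
              (p + 1) hpath' hst'' hfal'' (Finset.Subset.refl _) Finset.subset_union_left
              (by omega) (by omega) ?_ hph'
            have h1 := dst_triangle y'' y' x
            have h2 : 2 * t * (p + 1) = 2 * t * p + 2 * t := by ring
            omega
    have hst0 : St F j t x ∅ ∅ ∅ := by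
      refine ⟨fun c hc => absurd hc (Finset.notMem_empty _),
        fun c hc => absurd hc (Finset.notMem_empty _),
        fun c hc => absurd hc (Finset.notMem_empty _), ?_, by simp, by rw [Finset.card_empty]; omega⟩
      intro c _ _
      unfold out
      rw [Finset.filter_true_of_mem (fun i _ => by simp), Finset.card_univ, Fintype.card_fin]
      exact hjk
    refine key r hr [] [] ∅ ∅ ∅ ∅ x 0 Pool.Agent.H97.RK.Path.refl hst0 ?_ ?_ ?_ ?_ ?_ ?_ ?_
    · intro l hl
      rw [hline] at hl
      exact absurd hl (Finset.notMem_empty _)
    · rw [hline]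
      exact Finset.Subset.refl _
    · exact Finset.empty_subset _
    · rw [Finset.card_empty]
      omega
    · rw [Finset.card_empty]
      omega
    · rw [dst_self]
      exact Nat.zero_le _
    · omega

end Pool.Agent.H20.RKS
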