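import Pool.Agent.H97.RK.Targets

/-! (FIN) everything together. -/

set_option autoImplicit false

open Finset Pool.Agent.H97.RK

namespace Pool.Agent.H20.RKS

/-- the deterministic part of the tradeoff -/
theorem tradeoff_of (hRUN : T_RUN) (hCN1 : T_CN1) {n k m : ℕ} {F : Fml n k m} {ε : ℝ}
    {K j t d e s₀ : ℕ} (hK : 1 ≤ K) (hP : Par F j t d e s₀) (hd1 : 1 ≤ d) (hde : 2 * d + e ≤ n)
    (hb1 : (2 : ℝ) ^ (3 * d) * bl n (2 * t * (n * (k / K) / d + 1)) ≤ (2 : ℝ) ^ (ε * n))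
    (S r : ℕ) (line : ℕ → Clause n) (rule : ℕ → Rule n) (href : IsRef F S r line rule) (ρ : ℝ)
    (hρ : ∀ (i : ℕ) (l : List (Fin n)), Path rule r i l →
      ((univ.filter fun v => k < K * l.count v).card : ℝ) ≤ ρ * n) :
    (2 : ℝ) ^ ((1 - ρ - ε) * n) ≤ S := by
  have hρ0 : 0 ≤ ρ * n := le_trans (Nat.cast_nonneg _) (hρ r [] Pool.Agent.H97.RK.Path.refl)
  have hc : ∀ (i : ℕ) (l : List (Fin n)), Path rule r i l →
      (univ.filter fun v => k / K < l.count v).card ≤ ⌊ρ * n⌋₊ := by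
    intro i l hl
    apply Nat.le_floor
    refine le_trans ?_ (hρ i l hl)
    apply le_of_eq
    congr 2
    ext v
    rw [Finset.mem_filter, Finset.mem_filter, Nat.div_lt_iff_lt_mul (by omega), mul_comm]
  have h1 := hCN1 n S (⌊ρ * n⌋₊ + 3 * d) (2 * t * (n * (k / K) / d + 1)) line
    (hRUN n k m F j t d e s₀ hP hd1 hde S r line rule href (k / K) ⌊ρ * n⌋₊ hc)
  have h2 : (2 : ℝ) ^ n ≤ S * (2 ^ (⌊ρ * n⌋₊ + 3 * d) *
      bl n (2 * t * (n * (k / K) / d + 1))) := by exact_mod_cast h1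
  have h3 : (2 : ℝ) ^ ⌊ρ * n⌋₊ ≤ (2 : ℝ) ^ (ρ * n) := by
    rw [← Real.rpow_natCast]
    exact Real.rpow_le_rpow_of_exponent_le (by norm_num) (Nat.floor_le hρ0)
  have h4 : (2 : ℝ) ^ n ≤ S * ((2 : ℝ) ^ (ρ * n) * (2 : ℝ) ^ (ε * n)) := by
    refine h2.trans (mul_le_mul_of_nonneg_left ?_ (Nat.cast_nonneg _))
    rw [pow_add, mul_assoc]
    exact mul_le_mul h3 hb1 (by positivity) (by positivity)
  have h5 : (2 : ℝ) ^ ((1 - ρ - ε) * n) =
      (2 : ℝ) ^ n / ((2 : ℝ) ^ (ρ * n) * (2 : ℝ) ^ (ε * n)) := by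
    rw [← Real.rpow_add (by norm_num), ← Real.rpow_natCast, ← Real.rpow_sub (by norm_num)]
    congr 1
    ring
  rw [h5, div_le_iff₀ (by positivity)]
  exact h4

/-- the deterministic part of the bound for all refutations -/
theorem general_of (hTAU : T_TAU) (hMED : T_MED) (hCN2 : T_CN2) {n k m : ℕ} {F : Fml n k m}
    {ε : ℝ} {j t d e s₀ : ℕ} (hP : Par F j t d e s₀)
    (hb2 : 2 * (bl n (d + 2 * t) : ℝ) * bl n t ≤ (2 : ℝ) ^ (ε * n))
    (hb3 : 2 * (2 ^ n * bl n (e + d)) ≤ 3 ^ n)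
    (S r : ℕ) (line : ℕ → Clause n) (rule : ℕ → Rule n) (href : IsRef F S r line rule) :
    (3 / 2 : ℝ) ^ n * (2 : ℝ) ^ (-(ε * n)) ≤ S := by
  have h1 := hCN2 n S (d + 2 * t) t (e + d) line (by
    intro x A hA
    obtain ⟨y, W, J, hst, hdst⟩ := hTAU n k m F j t d e s₀ hP x A (by omega)
    obtain ⟨i, hi, z, hz, hf, hn⟩ := hMED n k m F j t d e s₀ hP S r line rule href y A W J hst
    exact ⟨i, hi, y, z, hdst, hz, hf, hn⟩)
  have h2 : 3 ^ n ≤ 2 * (S * (2 ^ n * bl n (d + 2 * t) * bl n t)) := by omega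
  have h3 : (3 : ℝ) ^ n ≤ 2 * (S * (2 ^ n * bl n (d + 2 * t) * bl n t)) := by exact_mod_cast h2
  have h4 : (3 : ℝ) ^ n ≤ S * (2 ^ n * (2 : ℝ) ^ (ε * n)) := by
    refine h3.trans ?_
    have h5 : 2 * ((S : ℝ) * (2 ^ n * bl n (d + 2 * t) * bl n t)) =
        S * (2 ^ n * (2 * bl n (d + 2 * t) * bl n t)) := by ring
    rw [h5]
    exact mul_le_mul_of_nonneg_left (mul_le_mul_of_nonneg_left hb2 (by positivity))
      (Nat.cast_nonneg _)
  rw [div_pow, Real.rpow_neg (by norm_num), div_mul_eq_mul_div, ← div_eq_mul_inv, div_div,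
    div_le_iff₀ (by positivity)]
  calc (3 : ℝ) ^ n ≤ S * (2 ^ n * (2 : ℝ) ^ (ε * n)) := h4
    _ = S * ((2 : ℝ) ^ (ε * n) * 2 ^ n) := by ring

/-- the deterministic part -/
theorem hard_of (hRUN : T_RUN) (hCN1 : T_CN1) (hTAU : T_TAU) (hMED : T_MED) (hCN2 : T_CN2)
    {n k m : ℕ} {F : Fml n k m} {ε : ℝ} {K j t d e s₀ : ℕ} (hK : 1 ≤ K)
    (hP : Par F j t d e s₀) (hd1 : 1 ≤ d) (hde : 2 * d + e ≤ n)
    (hb1 : (2 : ℝ) ^ (3 * d) * bl n (2 * t * (n * (k / K) / d + 1)) ≤ (2 : ℝ) ^ (ε * n))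
    (hb2 : 2 * (bl n (d + 2 * t) : ℝ) * bl n t ≤ (2 : ℝ) ^ (ε * n))
    (hb3 : 2 * (2 ^ n * bl n (e + d)) ≤ 3 ^ n)
    (hun : ∀ z, ∃ c, Falsified (cls F c) z) : Hard ε K F where
  unsat := hun
  tradeoff := tradeoff_of hRUN hCN1 hK hP hd1 hde hb1
  general := general_of hTAU hMED hCN2 hP hb2 hb3

/-- the parameters for all formulas together, for the deterministic part and for the numbers -/
theorem params_of (hRUN : T_RUN) (hCN1 : T_CN1) (hTAU : T_TAU) (hMED : T_MED) (hCN2 : T_CN2)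
    (hNX1 : T_NX1) (hNX2 : T_NX2) (hNSA : T_NSA) (hPRM : T_PRM) (ε : ℝ) (hε : 0 < ε) :
    ∃ K : ℕ, 1 ≤ K ∧ ∀ k n m : ℕ, K ≤ k → K * k ≤ n → 2 ^ k * n ≤ m →
      (m : ℝ) ≤ (2 : ℝ) ^ ((1 + 1 / (K : ℝ)) * k) * n → ∃ j t d e s₀ : ℕ,
      1 ≤ n ∧ s₀ ≤ n ∧ e ≤ d ∧ d ≤ n ∧
      (∀ F : Fml n k m, X1 F j s₀ → X2 F t d e → (∀ z, ∃ c, Falsified (cls F c) z) →
        Hard ε K F) ∧
      ∑ s ∈ Icc 1 s₀, (n.choose s : ℝ) * m.choose s *
        (k.choose j * ((s : ℝ) / n) ^ j) ^ s ≤ 1 / (4 * n) ∧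
      (6 : ℝ) ^ n * m.choose t * (((n : ℝ) - d + e) / (2 * n)) ^ (k * t) ≤ 1 / (4 * n) ∧
      (2 : ℝ) ^ n * (1 - (1 / 2 : ℝ) ^ k) ^ m ≤ 1 / (4 * n) := by
  obtain ⟨δ, κ, hδ, hδ1, hκ, hκ1, hprm⟩ := hPRM (min ε 1) (lt_min hε one_pos) (min_le_right _ _)
  obtain ⟨σ, hσ, hσ3, K1, hK1⟩ := hNX1 κ hκ hκ1
  obtain ⟨K2, hK21, hK2⟩ := hprm σ hσ
  obtain ⟨K3, hK31, hK3⟩ := hNX2 δ hδ hδ1
  obtain ⟨K4, hK4⟩ := hNSA
  obtain ⟨K, hKdef⟩ : ∃ K, K = max (max K1 K2) (max K3 K4) := ⟨_, rfl⟩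
  have k1 : K1 ≤ K := by rw [hKdef]; exact (le_max_left _ _).trans (le_max_left _ _)
  have k2 : K2 ≤ K := by rw [hKdef]; exact (le_max_right _ _).trans (le_max_left _ _)
  have k3 : K3 ≤ K := by rw [hKdef]; exact (le_max_left _ _).trans (le_max_right _ _)
  have k4 : K4 ≤ K := by rw [hKdef]; exact (le_max_right _ _).trans (le_max_right _ _)
  refine ⟨K, by omega, ?_⟩
  intro k n m hk hn hm1 hm2
  have hKn : K ≤ n := le_trans (Nat.le_mul_of_pos_right K (by omega)) hn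
  have hn1 : 1 ≤ n := by omega
  have hnp : (0 : ℝ) < n := by exact_mod_cast hn1
  obtain ⟨j, t, d, e, p1, p2, p3, p4, p5, p6, p7, p8, p9, p10, p11, p12, p13, p14⟩ :=
    hK2 K k n k2 hk hn
  have hs0 : ⌊σ * n⌋₊ ≤ n := by
    apply Nat.floor_le_of_le
    nlinarith
  have hexp : (2 : ℝ) ^ (min ε 1 * n) ≤ (2 : ℝ) ^ (ε * n) :=
    Real.rpow_le_rpow_of_exponent_le (by norm_num)
      (mul_le_mul_of_nonneg_right (min_le_left _ _) hnp.le)
  refine ⟨j, t, d, e, ⌊σ * n⌋₊, hn1, hs0, by omega, by omega, ?_, ?_, ?_, ?_⟩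
  · intro F hx1 hx2 hun
    exact hard_of hRUN hCN1 hTAU hMED hCN2 (by omega)
      (Par.mk hx1 hx2 p2 p3 p4 p5 p6 (by omega)) p8 p9 (p12.trans hexp) (p13.trans hexp) p14 hun
  · apply hK1 k n m j (by omega) (by omega) _ p1 (by omega)
    have h1 : (2 : ℝ) ^ ((1 + 1 / (K : ℝ)) * k) ≤ 4 ^ k := by
      have h2 : (4 : ℝ) ^ k = (2 : ℝ) ^ (2 * (k : ℝ)) := by
        rw [Real.rpow_mul (by norm_num), Real.rpow_natCast]
        norm_num
      rw [h2]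
      apply Real.rpow_le_rpow_of_exponent_le (by norm_num)
      apply mul_le_mul_of_nonneg_right _ (Nat.cast_nonneg _)
      have h3 : (1 : ℝ) ≤ K := by
        have : 1 ≤ K := by omega
        exact_mod_cast this
      have h4 : 1 / (K : ℝ) ≤ 1 := by
        rw [div_le_one (by linarith)]
        exact h3
      linarith
    have h5 : (m : ℝ) ≤ 4 ^ k * n := hm2.trans (mul_le_mul_of_nonneg_right h1 hnp.le)
    exact_mod_cast h5
  · exact hK3 K k n m t d e k3 (by omega) (by omega) hm2 p10 (by omega) p7 p11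
  · exact hK4 k n m (by omega) hm1

open Classical in
theorem pf_FIN : T_FIN := by
  intro hRUN hCN1 hTAU hMED hCN2 hPX1 hPX2 hPSA hNX1 hNX2 hNSA hPRM ε hε
  obtain ⟨K, hK, hall⟩ := params_of hRUN hCN1 hTAU hMED hCN2 hNX1 hNX2 hNSA hPRM ε hε
  refine ⟨K, hK, ?_⟩
  intro k n m hk hn hm1 hm2
  obtain ⟨j, t, d, e, s₀, hn1, hs, hed, hdn, hhard, b1, b2, b3⟩ := hall k n m hk hn hm1 hm2
  have hnp : (0 : ℝ) < n := by exact_mod_cast hn1
  have hT : (0 : ℝ) ≤ ((2 * n) ^ k : ℝ) ^ m := by positivity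
  have e1 := (hPX1 n k m j s₀ hn1 hs).trans (mul_le_mul_of_nonneg_right b1 hT)
  have e2 := (hPX2 n k m t d e hn1 hed hdn).trans (mul_le_mul_of_nonneg_right b2 hT)
  have e3 := (hPSA n k m hn1).trans (mul_le_mul_of_nonneg_right b3 hT)
  have hsub : (univ.filter fun F : Fml n k m => ¬ Hard ε K F) ⊆
      ((univ.filter fun F : Fml n k m => ¬ X1 F j s₀) ∪
        (univ.filter fun F : Fml n k m => ¬ X2 F t d e)) ∪
        (univ.filter fun F : Fml n k m => ¬ ∀ z, ∃ c, Falsified (cls F c) z) := by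
    intro F hF
    rw [Finset.mem_filter] at hF
    rw [Finset.mem_union, Finset.mem_union, Finset.mem_filter, Finset.mem_filter,
      Finset.mem_filter]
    by_contra hcon
    push Not at hcon
    obtain ⟨⟨c1, c2⟩, c3⟩ := hcon
    exact hF.2 (hhard F (c1 (Finset.mem_univ _)) (c2 (Finset.mem_univ _))
      (c3 (Finset.mem_univ _)))
  have hcard : ((univ.filter fun F : Fml n k m => ¬ Hard ε K F).card : ℝ) ≤
      ((univ.filter fun F : Fml n k m => ¬ X1 F j s₀).card : ℝ) +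
      ((univ.filter fun F : Fml n k m => ¬ X2 F t d e).card : ℝ) +
      ((univ.filter fun F : Fml n k m => ¬ ∀ z, ∃ c, Falsified (cls F c) z).card : ℝ) := by
    have h1 := (Finset.card_le_card hsub).trans ((Finset.card_union_le _ _).trans
      (Nat.add_le_add_right (Finset.card_union_le _ _) _))
    exact_mod_cast h1
  have hN : Nat.card {F : Fml n k m // ¬ Hard ε K F} =
      (univ.filter fun F : Fml n k m => ¬ Hard ε K F).card := by
    rw [Nat.card_eq_fintype_card, Fintype.card_subtype]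
  have hF : (Nat.card (Fml n k m) : ℝ) = ((2 * n) ^ k : ℝ) ^ m := by
    rw [Nat.card_eq_fintype_card, Fintype.card_fun, Fintype.card_fun, Fintype.card_prod]
    simp only [Fintype.card_fin, Fintype.card_bool]
    push_cast
    ring
  rw [hN, hF]
  have h4 : ((univ.filter fun F : Fml n k m => ¬ Hard ε K F).card : ℝ) ≤
      3 * (1 / (4 * n) * ((2 * n) ^ k : ℝ) ^ m) := by linarith
  calc (n : ℝ) * ((univ.filter fun F : Fml n k m => ¬ Hard ε K F).card : ℝ) ≤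
      n * (3 * (1 / (4 * n) * ((2 * n) ^ k : ℝ) ^ m)) :=
        mul_le_mul_of_nonneg_left h4 hnp.le
    _ = 3 / 4 * ((2 * n) ^ k : ℝ) ^ m := by
      field_simp
    _ ≤ ((2 * n) ^ k : ℝ) ^ m := by linarith

end Pool.Agent.H20.RKS
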